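import Mathlib

/-!
# BR, block END: a point of `GL` over an infinite subfield at which a polynomial does not vanish
-/

set_option autoImplicit false

namespace Pool.Agent.Helper55.BR

open MvPolynomial Matrix

variable {r : ℕ} (m : Fin r → ℕ) {Ω : Type*} [Field Ω]

/-- the generic matrices -/
noncomputable def genM (i : Fin r) :
    Matrix (Fin (m i)) (Fin (m i)) (MvPolynomial (Σ i : Fin r, Fin (m i) × Fin (m i)) Ω) :=
  Matrix.of fun j k => X ⟨i, j, k⟩

/-- right multiplication of the generic matrices by constant matrices -/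
noncomputable def subst (z : ∀ i, Matrix (Fin (m i)) (Fin (m i)) Ω) :
    MvPolynomial (Σ i : Fin r, Fin (m i) × Fin (m i)) Ω →ₐ[Ω]
      MvPolynomial (Σ i : Fin r, Fin (m i) × Fin (m i)) Ω :=
  aeval fun s => ∑ l, X ⟨s.1, s.2.1, l⟩ * C (z s.1 l s.2.2)

theorem subst_comp (z z' : ∀ i, Matrix (Fin (m i)) (Fin (m i)) Ω) (h : ∀ i, z' i * z i = 1) :
    (subst m z').comp (subst m z) = AlgHom.id Ω _ := by
  refine MvPolynomial.algHom_ext fun s => ?_
  obtain ⟨i, j, k⟩ := s
  have e1 : (subst m z).toRingHom (X ⟨i, j, k⟩) = ∑ l, X ⟨i, j, l⟩ * C (z i l k) := by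
    show aeval _ (X _) = _
    rw [aeval_X]
  have e2 : ∀ l, subst m z' (X ⟨i, j, l⟩) = ∑ p, X ⟨i, j, p⟩ * C (z' i p l) := by
    intro l
    show aeval _ (X _) = _
    rw [aeval_X]
  have e3 : ∀ c, subst m z' (C c) = C c := fun c => by
    show aeval _ (C c) = _
    rw [aeval_C]
    rfl
  show subst m z' ((subst m z).toRingHom (X ⟨i, j, k⟩)) = X ⟨i, j, k⟩
  rw [e1, map_sum]
  have e4 : ∀ l, subst m z' (X ⟨i, j, l⟩ * C (z i l k)) =
      ∑ p, (X ⟨i, j, p⟩ : MvPolynomial (Σ i : Fin r, Fin (m i) × Fin (m i)) Ω) *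
        (C (z' i p l) * C (z i l k)) := by
    intro l
    rw [map_mul, e2, e3, Finset.sum_mul]
    exact Finset.sum_congr rfl fun p _ => mul_assoc _ _ _
  rw [Finset.sum_congr rfl fun l _ => e4 l, Finset.sum_comm]
  have h1 : ∀ p : Fin (m i), ∑ l, (X ⟨i, j, p⟩ : MvPolynomial (Σ i : Fin r, Fin (m i) × Fin (m i)) Ω)
      * (C (z' i p l) * C (z i l k)) = X ⟨i, j, p⟩ * C ((z' i * z i) p k) := by
    intro p
    rw [← Finset.mul_sum, Matrix.mul_apply, map_sum]
    simp only [map_mul]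
  rw [Finset.sum_congr rfl fun p _ => h1 p, h i, Finset.sum_eq_single k]
  · rw [Matrix.one_apply_eq, map_one, mul_one]
  · intro p _ hp
    rw [Matrix.one_apply_ne hp, map_zero, mul_zero]
  · intro hk
    exact absurd (Finset.mem_univ _) hk

theorem exists_pt {L : Type*} [Field L] [Infinite L] [Algebra L Ω]
    (G : MvPolynomial (Σ i : Fin r, Fin (m i) × Fin (m i)) Ω) (hG : G ≠ 0)
    (z : ∀ i, Matrix (Fin (m i)) (Fin (m i)) Ω) (hz : ∀ i, IsUnit (z i).det) :
    ∃ y : ∀ i, Matrix (Fin (m i)) (Fin (m i)) L, (∀ i, IsUnit (y i).det) ∧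
      eval (fun s => ((y s.1).map (algebraMap L Ω) * z s.1) s.2.1 s.2.2) G ≠ 0 := by
  classical
  have h1 : subst m z G ≠ 0 := by
    intro h0
    apply hG
    have h2 := DFunLike.congr_fun (subst_comp m (fun i => z i) (fun i => (z i)⁻¹)
      (fun i => Matrix.nonsing_inv_mul _ (hz i))) G
    rw [AlgHom.comp_apply, h0, map_zero] at h2
    exact h2.symm
  have hdet : ∀ i, (genM m (Ω := Ω) i).det ≠ 0 := by
    intro i h0
    have h3 := congrArg (eval (fun s : (Σ i : Fin r, Fin (m i) × Fin (m i)) =>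
      (1 : Matrix (Fin (m s.1)) (Fin (m s.1)) Ω) s.2.1 s.2.2)) h0
    rw [RingHom.map_det, map_zero] at h3
    have h4 : (RingHom.mapMatrix (eval (fun s : (Σ i : Fin r, Fin (m i) × Fin (m i)) =>
      (1 : Matrix (Fin (m s.1)) (Fin (m s.1)) Ω) s.2.1 s.2.2))) (genM m i) = 1 := by
      ext j k
      simp [genM]
    rw [h4, Matrix.det_one] at h3
    exact one_ne_zero h3
  have h5 : subst m z G * ∏ i, (genM m i).det ≠ 0 :=
    mul_ne_zero h1 (Finset.prod_ne_zero_iff.2 fun i _ => hdet i)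
  obtain ⟨y, hy⟩ : ∃ y : (Σ i : Fin r, Fin (m i) × Fin (m i)) → L,
      eval (fun s => algebraMap L Ω (y s)) (subst m z G * ∏ i, (genM m i).det) ≠ 0 := by
    by_contra hcon
    push Not at hcon
    apply h5
    refine MvPolynomial.funext_set (fun _ => Set.range (algebraMap L Ω))
      (fun _ => Set.infinite_range_of_injective (algebraMap L Ω).injective) fun x hx => ?_
    have hx' : ∀ s, ∃ y : L, algebraMap L Ω y = x s := fun s => hx s (Set.mem_univ s)
    choose y hy using hx'
    rw [map_zero, ← hcon y]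
    congr 2
    funext s
    exact (hy s).symm
  rw [map_mul, mul_ne_zero_iff, map_prod, Finset.prod_ne_zero_iff] at hy
  refine ⟨fun i => Matrix.of fun j k => y ⟨i, j, k⟩, fun i => ?_, ?_⟩
  · have h6 := hy.2 i (Finset.mem_univ i)
    rw [RingHom.map_det] at h6
    have h7 : (RingHom.mapMatrix (eval fun s => algebraMap L Ω (y s))) (genM m i) =
        (RingHom.mapMatrix (algebraMap L Ω)) (Matrix.of fun j k => y ⟨i, j, k⟩) := by
      ext j k
      simp [genM]
    rw [h7, ← RingHom.map_det, Ne, map_eq_zero_iff _ (algebraMap L Ω).injective] at h6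
    exact IsUnit.mk0 _ h6
  · have h8 : eval (fun s => algebraMap L Ω (y s)) (subst m z G) =
        eval (fun s : (Σ i : Fin r, Fin (m i) × Fin (m i)) =>
          (((Matrix.of fun j k => y ⟨s.1, j, k⟩ : Matrix (Fin (m s.1)) (Fin (m s.1)) L).map
            (algebraMap L Ω)) * z s.1) s.2.1 s.2.2) G := by
      rw [subst, ← MvPolynomial.coe_aeval_eq_eval, ← MvPolynomial.coe_aeval_eq_eval]
      show aeval _ (aeval _ G) = aeval _ G
      rw [← AlgHom.comp_apply]
      refine DFunLike.congr_fun (MvPolynomial.algHom_ext fun s => ?_) G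
      obtain ⟨i, j, k⟩ := s
      simp [Matrix.mul_apply]
    rw [← h8]
    exact hy.1

end Pool.Agent.Helper55.BR
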