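import Mathlib

/-!
# BR, block END: extension of scalars of a central simple algebra, splitting over the algebraic
closure
-/

set_option autoImplicit false

namespace Pool.Agent.Helper55.BR

open TensorProduct

section Simple

variable {F E B : Type*} [Field F] [Field E] [Algebra F E] [Ring B] [Algebra F B]

theorem equiv_left_mul {ι : Type*} [DecidableEq ι] (ℬ : Module.Basis ι F E) (c : B)
    (x : E ⊗[F] B) (j : ι) :
    TensorProduct.equivFinsuppOfBasisLeft ℬ ((1 : E) ⊗ₜ[F] c * x) j =
      c * TensorProduct.equivFinsuppOfBasisLeft ℬ x j := by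
  induction x with
  | zero => simp
  | tmul e b =>
    rw [Algebra.TensorProduct.tmul_mul_tmul, one_mul,
      TensorProduct.equivFinsuppOfBasisLeft_apply_tmul_apply,
      TensorProduct.equivFinsuppOfBasisLeft_apply_tmul_apply, mul_smul_comm]
  | add x y hx hy => rw [mul_add, map_add, map_add, Finsupp.add_apply, Finsupp.add_apply, hx, hy,
      mul_add]

theorem equiv_right_mul {ι : Type*} [DecidableEq ι] (ℬ : Module.Basis ι F E) (c : B)
    (x : E ⊗[F] B) (j : ι) :
    TensorProduct.equivFinsuppOfBasisLeft ℬ (x * (1 : E) ⊗ₜ[F] c) j =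
      TensorProduct.equivFinsuppOfBasisLeft ℬ x j * c := by
  induction x with
  | zero => simp
  | tmul e b =>
    rw [Algebra.TensorProduct.tmul_mul_tmul, mul_one,
      TensorProduct.equivFinsuppOfBasisLeft_apply_tmul_apply,
      TensorProduct.equivFinsuppOfBasisLeft_apply_tmul_apply, smul_mul_assoc]
  | add x y hx hy => rw [add_mul, map_add, map_add, Finsupp.add_apply, Finsupp.add_apply, hx, hy,
      add_mul]

/-- a central simple algebra stays simple after every extension of scalars -/
theorem isSimpleRing_baseChange [Algebra.IsCentral F B] [IsSimpleRing B] :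
    IsSimpleRing (E ⊗[F] B) := by
  classical
  have hnB : Nontrivial B := inferInstance
  let ℬ := Module.Basis.ofVectorSpace F E
  rw [isSimpleRing_iff_isTwoSided_imp]
  refine ⟨?_, fun I hI => ?_⟩
  · have hfr : Function.Injective (Algebra.TensorProduct.includeRight : B →ₐ[F] E ⊗[F] B) :=
      Algebra.TensorProduct.includeRight_injective (algebraMap F E).injective
    exact hfr.nontrivial
  by_cases hbot : I = ⊥
  · exact Or.inl hbot
  right
  rw [Ideal.eq_top_iff_one]
  obtain ⟨x, hxI, hx0⟩ := Submodule.exists_mem_ne_zero_of_ne_bot hbot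
  have key : ∀ n : ℕ, ∀ x ∈ I, x ≠ 0 →
      (TensorProduct.equivFinsuppOfBasisLeft ℬ x : _ →₀ B).support.card = n → (1 : E ⊗[F] B) ∈ I := by
    intro n
    induction n using Nat.strong_induction_on with
    | _ n ih =>
    intro x hxI hx0 hn
    have hne : (TensorProduct.equivFinsuppOfBasisLeft ℬ x : _ →₀ B) ≠ 0 := by
      rwa [Ne, LinearEquiv.map_eq_zero_iff]
    obtain ⟨j0, hj0⟩ := Finsupp.ne_iff.1 hne
    rw [Finsupp.zero_apply] at hj0
    -- the coefficients at `j0` of the elements of `I` supported in the support of `x`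
    let T : TwoSidedIdeal B := TwoSidedIdeal.mk'
      {b | ∃ y ∈ I, (∀ j, TensorProduct.equivFinsuppOfBasisLeft ℬ x j = 0 →
          TensorProduct.equivFinsuppOfBasisLeft ℬ y j = 0) ∧
        TensorProduct.equivFinsuppOfBasisLeft ℬ y j0 = b}
      ⟨0, I.zero_mem, fun j _ => by simp, by simp⟩
      (by
        rintro b b' ⟨y, hy, hys, rfl⟩ ⟨y', hy', hys', rfl⟩
        exact ⟨y + y', I.add_mem hy hy', fun j hj => by
          rw [map_add, Finsupp.add_apply, hys j hj, hys' j hj, add_zero], by
          rw [map_add, Finsupp.add_apply]⟩)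
      (by
        rintro b ⟨y, hy, hys, rfl⟩
        exact ⟨-y, I.neg_mem hy, fun j hj => by
          rw [map_neg, Finsupp.neg_apply, hys j hj, neg_zero], by
          rw [map_neg, Finsupp.neg_apply]⟩)
      (by
        rintro c b ⟨y, hy, hys, rfl⟩
        exact ⟨(1 : E) ⊗ₜ[F] c * y, I.mul_mem_left _ hy, fun j hj => by
          rw [equiv_left_mul, hys j hj, mul_zero], by rw [equiv_left_mul]⟩)
      (by
        rintro b c ⟨y, hy, hys, rfl⟩
        exact ⟨y * (1 : E) ⊗ₜ[F] c, I.mul_mem_right _ hy, fun j hj => by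
          rw [equiv_right_mul, hys j hj, zero_mul], by rw [equiv_right_mul]⟩)
    have h1 : (1 : B) ∈ T := by
      refine IsSimpleRing.one_mem_of_ne_zero_mem T hj0 ?_
      rw [TwoSidedIdeal.mem_mk']
      exact ⟨x, hxI, fun j hj => hj, rfl⟩
    rw [TwoSidedIdeal.mem_mk'] at h1
    obtain ⟨y, hyI, hys, hy1⟩ := h1
    by_cases hcom : ∀ c : B, (1 : E) ⊗ₜ[F] c * y = y * (1 : E) ⊗ₜ[F] c
    · -- all coefficients are central
      have hcen : ∀ j, ∃ a : F, TensorProduct.equivFinsuppOfBasisLeft ℬ y j = algebraMap F B a := by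
        intro j
        rw [← Algebra.IsCentral.mem_center_iff, Subalgebra.mem_center_iff]
        intro c
        rw [← equiv_left_mul, hcom, equiv_right_mul]
      choose a ha using hcen
      have hy2 : y = (∑ j ∈ (TensorProduct.equivFinsuppOfBasisLeft ℬ y : _ →₀ B).support,
          a j • ℬ j) ⊗ₜ[F] (1 : B) := by
        have h2 := (TensorProduct.equivFinsuppOfBasisLeft ℬ).symm_apply_apply y
        rw [TensorProduct.equivFinsuppOfBasisLeft_symm_apply, Finsupp.sum] at h2
        rw [TensorProduct.sum_tmul]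
        conv_lhs => rw [← h2]
        refine Finset.sum_congr rfl fun j _ => ?_
        rw [ha j, TensorProduct.smul_tmul, Algebra.algebraMap_eq_smul_one]
      set e := ∑ j ∈ (TensorProduct.equivFinsuppOfBasisLeft ℬ y : _ →₀ B).support, a j • ℬ j
        with he
      have he0 : e ≠ 0 := by
        intro h0
        rw [h0, TensorProduct.zero_tmul] at hy2
        rw [hy2, map_zero, Finsupp.zero_apply] at hy1
        exact zero_ne_one hy1
      have h3 : (e⁻¹ ⊗ₜ[F] (1 : B)) * y ∈ I := I.mul_mem_left _ hyI
      rw [hy2, Algebra.TensorProduct.tmul_mul_tmul, inv_mul_cancel₀ he0, mul_one] at h3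
      exact h3
    · push Not at hcom
      obtain ⟨c, hc⟩ := hcom
      set z := (1 : E) ⊗ₜ[F] c * y - y * (1 : E) ⊗ₜ[F] c with hz
      have hzI : z ∈ I := I.sub_mem (I.mul_mem_left _ hyI) (I.mul_mem_right _ hyI)
      have hz0 : z ≠ 0 := sub_ne_zero.2 hc
      have hzj : ∀ j, TensorProduct.equivFinsuppOfBasisLeft ℬ z j =
          c * TensorProduct.equivFinsuppOfBasisLeft ℬ y j -
            TensorProduct.equivFinsuppOfBasisLeft ℬ y j * c := by
        intro j
        rw [hz, map_sub, Finsupp.sub_apply, equiv_left_mul, equiv_right_mul]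
      refine ih _ ?_ z hzI hz0 rfl
      rw [← hn]
      refine Finset.card_lt_card ⟨?_, ?_⟩
      · intro j hj
        rw [Finsupp.mem_support_iff] at hj ⊢
        intro h0
        apply hj
        rw [hzj, hys j h0, mul_zero, zero_mul, sub_zero]
      · intro hsub
        have h4 : j0 ∈ (TensorProduct.equivFinsuppOfBasisLeft ℬ z : _ →₀ B).support :=
          hsub (Finsupp.mem_support_iff.2 hj0)
        rw [Finsupp.mem_support_iff] at h4
        apply h4
        rw [hzj, hy1, mul_one, one_mul, sub_self]
  exact key _ x hxI hx0 rfl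

/-- a central algebra stays central after every extension of scalars -/
theorem isCentral_baseChange [Algebra.IsCentral F B] : Algebra.IsCentral E (E ⊗[F] B) := by
  classical
  let ℬ := Module.Basis.ofVectorSpace F E
  refine ⟨fun y hy => ?_⟩
  rw [Subalgebra.mem_center_iff] at hy
  have hcen : ∀ j, ∃ a : F, TensorProduct.equivFinsuppOfBasisLeft ℬ y j = algebraMap F B a := by
    intro j
    rw [← Algebra.IsCentral.mem_center_iff, Subalgebra.mem_center_iff]
    intro c
    rw [← equiv_left_mul, hy, equiv_right_mul]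
  choose a ha using hcen
  have hy2 : y = (∑ j ∈ (TensorProduct.equivFinsuppOfBasisLeft ℬ y : _ →₀ B).support,
      a j • ℬ j) ⊗ₜ[F] (1 : B) := by
    have h2 := (TensorProduct.equivFinsuppOfBasisLeft ℬ).symm_apply_apply y
    rw [TensorProduct.equivFinsuppOfBasisLeft_symm_apply, Finsupp.sum] at h2
    rw [TensorProduct.sum_tmul]
    conv_lhs => rw [← h2]
    refine Finset.sum_congr rfl fun j _ => ?_
    rw [ha j, TensorProduct.smul_tmul, Algebra.algebraMap_eq_smul_one]
  rw [Algebra.mem_bot]
  exact ⟨_, hy2.symm⟩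

end Simple

/-- a central simple algebra of dimension `m ^ 2` has a representation in the matrices over every
algebraically closed field -/
theorem rep_algClosed {F Ω B : Type*} [Field F] [Field Ω] [IsAlgClosed Ω] [Algebra F Ω] [Ring B]
    [Algebra F B] [Algebra.IsCentral F B] [IsSimpleRing B] [FiniteDimensional F B] (m : ℕ)
    (hm : Module.finrank F B = m ^ 2) : Nonempty (B →ₐ[F] Matrix (Fin m) (Fin m) Ω) := by
  have hs : IsSimpleRing (Ω ⊗[F] B) := isSimpleRing_baseChange
  obtain ⟨n, hn, ⟨e⟩⟩ := IsSimpleRing.exists_algEquiv_matrix_of_isAlgClosed Ω (Ω ⊗[F] B)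
  have hnm : n = m := by
    have h1 := e.toLinearEquiv.finrank_eq
    rw [Module.finrank_baseChange, hm, Module.finrank_matrix, Module.finrank_self,
      Fintype.card_fin, mul_one, ← pow_two] at h1
    exact (Nat.pow_left_injective two_ne_zero h1).symm
  subst hnm
  exact ⟨(e.toAlgHom.restrictScalars F).comp Algebra.TensorProduct.includeRight⟩

theorem stdBasis_repr {E : Type*} [Field E] {n : ℕ} (M : Matrix (Fin n) (Fin n) E)
    (k : Fin n × Fin n) : (Matrix.stdBasis E (Fin n) (Fin n)).repr M k = M k.1 k.2 := by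
  simp [Matrix.stdBasis, Pi.basis_repr]

/-- **P3a.** splitting over the algebraic closure, in matrix form -/
theorem split_closure {F : Type} [Field F] (B : Type) [Ring B] [Algebra F B]
    [Algebra.IsCentral F B] [IsSimpleRing B] [FiniteDimensional F B] (m : ℕ)
    (hm : Module.finrank F B = m ^ 2) :
    ∃ ρ : B →ₐ[F] Matrix (Fin m) (Fin m) (AlgebraicClosure F),
      ∀ b : Module.Basis (Fin m × Fin m) F B,
        (Matrix.of fun j k : Fin m × Fin m => ρ (b j) k.1 k.2).det ≠ 0 := by
  have hs : IsSimpleRing (AlgebraicClosure F ⊗[F] B) := isSimpleRing_baseChange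
  obtain ⟨n, hn, ⟨e⟩⟩ := IsSimpleRing.exists_algEquiv_matrix_of_isAlgClosed (AlgebraicClosure F)
    (AlgebraicClosure F ⊗[F] B)
  have hnm : n = m := by
    have h1 := e.toLinearEquiv.finrank_eq
    rw [Module.finrank_baseChange, hm, Module.finrank_matrix, Module.finrank_self,
      Fintype.card_fin, mul_one, ← pow_two] at h1
    exact (Nat.pow_left_injective two_ne_zero h1).symm
  subst hnm
  refine ⟨(e.toAlgHom.restrictScalars F).comp Algebra.TensorProduct.includeRight, fun b => ?_⟩
  have h2 : (Matrix.of fun j k : Fin n × Fin n =>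
      ((e.toAlgHom.restrictScalars F).comp Algebra.TensorProduct.includeRight) (b j) k.1 k.2) =
      ((Matrix.stdBasis (AlgebraicClosure F) (Fin n) (Fin n)).toMatrix
        ((Algebra.TensorProduct.basis (AlgebraicClosure F) b).map e.toLinearEquiv)).transpose := by
    ext j k
    rw [Matrix.transpose_apply, Module.Basis.toMatrix_apply, Module.Basis.map_apply,
      Algebra.TensorProduct.basis_apply, stdBasis_repr]
    rfl
  rw [h2, Matrix.det_transpose]
  have h3 := Module.Basis.toMatrix_mul_toMatrix_flip
    ((Matrix.stdBasis (AlgebraicClosure F) (Fin n) (Fin n)))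
    ((Algebra.TensorProduct.basis (AlgebraicClosure F) b).map e.toLinearEquiv)
  have h4 := congrArg Matrix.det h3
  rw [Matrix.det_mul, Matrix.det_one] at h4
  exact left_ne_zero_of_mul_eq_one h4

end Pool.Agent.Helper55.BR
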