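import Pool.Agent.Helper55.BR.Simple

/-!
# BR, block LOC, P3: the degree of an element of a central division algebra of dimension `d ^ 2`
-/

set_option autoImplicit false

namespace Pool.Agent.Helper55.BR

open TensorProduct

universe u v

/-- the dimension of a commutative subfield of a central simple algebra without zero divisors -/
theorem finrank_le_of_algHom {F : Type u} [Field F] {D : Type v} [Ring D] [Algebra F D]
    [FiniteDimensional F D] [Algebra.IsCentral F D] [IsSimpleRing D] {d : ℕ}
    (hd : Module.finrank F D = d ^ 2) (E : Type u) [Field E] [Algebra F E] (ι : E →ₐ[F] D) :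
    Module.finrank F E ≤ d := by
  have hcomm : ∀ x y : E, Commute ((ι : E →+* D) x) ((ι : E →+* D) y) := fun x y => by
    show _ * _ = _ * _
    rw [← map_mul, ← map_mul, mul_comm]
  let iM : Module E D := Module.compHom D ((ι : E →+* D).toOpposite hcomm)
  have hsm : ∀ (e : E) (x : D), e • x = x * ι e := fun e x => rfl
  have iT : IsScalarTower F E D := ⟨fun a e x => by
    rw [hsm, hsm, map_smul, mul_smul_comm]⟩
  have hfE : FiniteDimensional F E := FiniteDimensional.of_injective ι.toLinearMap
    (ι : E →+* D).injective
  have hfD : Module.Finite E D := Module.Finite.of_restrictScalars_finite F E D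
  let lm : D →ₐ[F] Module.End E D :=
    { toFun := fun a =>
        { toFun := fun x => a * x
          map_add' := fun x y => mul_add _ _ _
          map_smul' := fun e x => by
            rw [RingHom.id_apply, hsm, hsm, mul_assoc] }
      map_one' := by
        ext x
        exact one_mul x
      map_mul' := fun a b => by
        ext x
        exact mul_assoc a b x
      map_zero' := by
        ext x
        exact zero_mul x
      map_add' := fun a b => by
        ext x
        exact add_mul a b x
      commutes' := fun c => by
        ext x
        show algebraMap F D c * x = (algebraMap F (Module.End E D) c) x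
        rw [← Algebra.smul_def]
        rfl }
  let Φ : E ⊗[F] D →ₐ[E] Module.End E D :=
    Algebra.TensorProduct.lift (Algebra.ofId E (Module.End E D)) lm (fun e a => by
      show _ * _ = _ * _
      ext x
      show e • (a * x) = a * (e • x)
      rw [hsm, hsm, mul_assoc])
  have hs : IsSimpleRing (E ⊗[F] D) := isSimpleRing_baseChange
  have hnD : Nontrivial D := inferInstance
  have hinj : Function.Injective Φ := RingHom.injective (Φ : E ⊗[F] D →+* Module.End E D)
  have h1 := LinearMap.finrank_le_finrank_of_injective (f := Φ.toLinearMap) hinj
  have h2 : Module.finrank E (Module.End E D) = Module.finrank E D * Module.finrank E D :=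
    Module.finrank_linearMap E E D D
  rw [Module.finrank_baseChange, hd, h2] at h1
  have h3 := Module.finrank_mul_finrank F E D
  rw [hd] at h3
  have h4 : d ≤ Module.finrank E D := by
    by_contra hcon
    push Not at hcon
    nlinarith
  have h5 : 0 < Module.finrank E D := Module.finrank_pos
  have h6 : Module.finrank F E * Module.finrank E D ≤ d * Module.finrank E D := by
    rw [h3, pow_two]
    exact Nat.mul_le_mul_left _ h4
  exact Nat.le_of_mul_le_mul_right h6 h5

/-- **P3** -/
theorem comm_le {F : Type u} [Field F] {D : Type v} [DivisionRing D] [Algebra F D]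
    [FiniteDimensional F D] [Algebra.IsCentral F D] {d : ℕ} (hd : Module.finrank F D = d ^ 2)
    (x : D) : (minpoly F x).natDegree ≤ d := by
  have hx : IsIntegral F x := Algebra.IsIntegral.isIntegral x
  have hirr : Irreducible (minpoly F x) := minpoly.irreducible hx
  have hf : Fact (Irreducible (minpoly F x)) := ⟨hirr⟩
  have h1 := finrank_le_of_algHom hd (AdjoinRoot (minpoly F x))
    (Ideal.Quotient.liftₐ (Ideal.span {minpoly F x}) (Polynomial.aeval x) (by
      intro a ha
      obtain ⟨b, rfl⟩ := Ideal.mem_span_singleton'.1 ha
      rw [map_mul, minpoly.aeval, mul_zero]))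
  rwa [(AdjoinRoot.powerBasis hirr.ne_zero).finrank, AdjoinRoot.powerBasis_dim] at h1

end Pool.Agent.Helper55.BR
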