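import Pool.Agent.Helper55.BR.Poly

/-!
# TOWERS, T4: `GL(B)` is Zariski dense for every domain `B` with infinitely many units
-/

set_option autoImplicit false

namespace Pool.Agent.Helper55.BR

open MvPolynomial Matrix

section Cl

variable {Ω : Type*} [Field Ω] {n : Type*} [Fintype n] [DecidableEq n]

/-- the Zariski closure of a set of matrices -/
def ZCl (S : Set (Matrix n n Ω)) : Set (Matrix n n Ω) :=
  {x | ∀ P : MvPolynomial (n × n) Ω, eval (fun s => x s.1 s.2) P ≠ 0 →
    ∃ y ∈ S, eval (fun s => y s.1 s.2) P ≠ 0}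

omit [DecidableEq n] in
/-- left multiplication on polynomials -/
theorem exists_left (a : Matrix n n Ω) (P : MvPolynomial (n × n) Ω) :
    ∃ Q : MvPolynomial (n × n) Ω, ∀ x : Matrix n n Ω,
      eval (fun s => x s.1 s.2) Q = eval (fun s => (a * x) s.1 s.2) P := by
  refine ⟨aeval (fun s : n × n => ∑ l, C (a s.1 l) * X (l, s.2)) P, fun x => ?_⟩
  rw [← MvPolynomial.coe_aeval_eq_eval, ← MvPolynomial.coe_aeval_eq_eval]
  show aeval _ (aeval _ P) = aeval _ P
  rw [← AlgHom.comp_apply]
  refine DFunLike.congr_fun (MvPolynomial.algHom_ext fun s => ?_) P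
  simp [Matrix.mul_apply]

omit [DecidableEq n] in
/-- right multiplication on polynomials -/
theorem exists_right (a : Matrix n n Ω) (P : MvPolynomial (n × n) Ω) :
    ∃ Q : MvPolynomial (n × n) Ω, ∀ x : Matrix n n Ω,
      eval (fun s => x s.1 s.2) Q = eval (fun s => (x * a) s.1 s.2) P := by
  refine ⟨aeval (fun s : n × n => ∑ l, X (s.1, l) * C (a l s.2)) P, fun x => ?_⟩
  rw [← MvPolynomial.coe_aeval_eq_eval, ← MvPolynomial.coe_aeval_eq_eval]
  show aeval _ (aeval _ P) = aeval _ P
  rw [← AlgHom.comp_apply]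
  refine DFunLike.congr_fun (MvPolynomial.algHom_ext fun s => ?_) P
  simp [Matrix.mul_apply]

omit [DecidableEq n] in
theorem zcl_mul {S : Set (Matrix n n Ω)} (hS : ∀ x ∈ S, ∀ y ∈ S, x * y ∈ S)
    {x y : Matrix n n Ω} (hx : x ∈ ZCl S) (hy : y ∈ ZCl S) : x * y ∈ ZCl S := by
  intro P hP
  obtain ⟨Q, hQ⟩ := exists_right y P
  obtain ⟨s, hs, hs2⟩ := hx Q (by rw [hQ]; exact hP)
  rw [hQ] at hs2
  obtain ⟨Q', hQ'⟩ := exists_left s P
  obtain ⟨s', hs', hs2'⟩ := hy Q' (by rw [hQ']; exact hs2)
  rw [hQ'] at hs2'
  exact ⟨s * s', hS s hs s' hs', hs2'⟩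

omit [Fintype n] [DecidableEq n] in
/-- a line with infinitely many points in `S` lies in the closure -/
theorem zcl_line {S : Set (Matrix n n Ω)} (a b : Matrix n n Ω)
    (h : {c : Ω | a + c • b ∈ S}.Infinite) (c : Ω) : a + c • b ∈ ZCl S := by
  classical
  intro P hP
  set p : Polynomial Ω := aeval (fun s : n × n => Polynomial.C (a s.1 s.2) +
    Polynomial.X * Polynomial.C (b s.1 s.2)) P with hp
  have hev : ∀ c : Ω, p.eval c = eval (fun s => (a + c • b) s.1 s.2) P := by
    intro c
    have h1 : p.eval c = ((Polynomial.aeval c : Polynomial Ω →ₐ[Ω] Ω).comp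
          (aeval (fun s : n × n => Polynomial.C (a s.1 s.2) +
        Polynomial.X * Polynomial.C (b s.1 s.2)))) P := by
      rw [AlgHom.comp_apply, Polynomial.coe_aeval_eq_eval, hp]
    rw [h1, ← MvPolynomial.coe_aeval_eq_eval]
    show _ = (MvPolynomial.aeval (fun s : n × n => (a + c • b) s.1 s.2) :
      MvPolynomial (n × n) Ω →ₐ[Ω] Ω) P
    refine DFunLike.congr_fun (MvPolynomial.algHom_ext fun s => ?_) P
    simp
    exact mul_comm _ _
  have hp0 : p ≠ 0 := by
    intro h0
    apply hP
    rw [← hev, h0, Polynomial.eval_zero]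
  obtain ⟨t, ht, htr⟩ := h.exists_notMem_finset p.roots.toFinset
  refine ⟨_, ht, ?_⟩
  rw [← hev]
  intro h0
  apply htr
  rw [Multiset.mem_toFinset, Polynomial.mem_roots hp0]
  exact h0

/-- density -/
theorem zcl_univ {S : Set (Matrix n n Ω)} (h1 : (1 : Matrix n n Ω) ∈ S)
    (hS : ∀ x ∈ S, ∀ y ∈ S, x * y ∈ S)
    (ht : ∀ i j, i ≠ j → {c : Ω | Matrix.transvection i j c ∈ S}.Infinite)
    (hd : ∀ i, {c : Ω | Matrix.diagonal (Function.update 1 i c) ∈ S}.Infinite)
    (x : Matrix n n Ω) : x ∈ ZCl S := by
  have h1' : (1 : Matrix n n Ω) ∈ ZCl S := fun P hP => ⟨1, h1, hP⟩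
  refine Matrix.diagonal_transvection_induction (fun x => x ∈ ZCl S) x ?_ ?_ ?_
  · intro D _
    have key : ∀ s : Finset n, Matrix.diagonal (fun i => if i ∈ s then D i else 1) ∈ ZCl S := by
      intro s
      induction s using Finset.induction_on with
      | empty => simpa using h1'
      | insert i s hi ih =>
        have h2 : Matrix.diagonal (fun j => if j ∈ insert i s then D j else 1) =
            Matrix.diagonal (Function.update 1 i (D i)) *
              Matrix.diagonal (fun j => if j ∈ s then D j else 1) := by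
          rw [Matrix.diagonal_mul_diagonal]
          congr 1
          funext j
          by_cases hj : j = i
          · subst hj
            simp [hi]
          · simp [hj]
        rw [h2]
        refine zcl_mul hS ?_ ih
        have h3 : ∀ c : Ω, Matrix.diagonal (Function.update 1 i c) =
            Matrix.diagonal (Function.update 1 i 0) + c • Matrix.single i i (1 : Ω) := by
          intro c
          ext p q
          by_cases hpq : p = q
          · subst hpq
            by_cases hp : p = i
            · subst hp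
              simp
            · simp [hp, Ne.symm hp]
          · simp only [Matrix.diagonal_apply_ne _ hpq, Matrix.add_apply, Matrix.smul_apply,
              Matrix.single_apply, zero_add]
            rw [if_neg]
            · simp
            · rintro ⟨rfl, rfl⟩
              exact hpq rfl
        rw [h3 (D i)]
        refine zcl_line _ _ ?_ _
        refine (hd i).mono fun c hc => ?_
        show Matrix.diagonal (Function.update 1 i 0) + c • Matrix.single i i (1 : Ω) ∈ S
        rw [← h3 c]
        exact hc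
    have h5 := key Finset.univ
    simpa using h5
  · intro t
    obtain ⟨i, j, hij, c⟩ := t
    show Matrix.transvection i j c ∈ ZCl S
    have h3 : ∀ c : Ω, Matrix.transvection i j c = 1 + c • Matrix.single i j (1 : Ω) := by
      intro c
      rw [Matrix.transvection, Matrix.smul_single, smul_eq_mul, mul_one]
    rw [h3 c]
    refine zcl_line _ _ ?_ _
    refine (ht i j hij).mono fun c hc => ?_
    show 1 + c • Matrix.single i j (1 : Ω) ∈ S
    rw [← h3 c]
    exact hc
  · intro a b ha hb
    exact zcl_mul hS ha hb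

end Cl

section Gls

variable {B Ω : Type*} [CommRing B] [Field Ω] (σ : B →+* Ω)

/-- the images of the invertible matrices over `B` -/
def glSet (n : ℕ) : Set (Matrix (Fin n) (Fin n) Ω) :=
  {x | ∃ y : Matrix.GeneralLinearGroup (Fin n) B, x = (y : Matrix (Fin n) (Fin n) B).map σ}

theorem glSet_of_det {n : ℕ} (y : Matrix (Fin n) (Fin n) B) (hy : IsUnit y.det) :
    y.map σ ∈ glSet σ n :=
  ⟨Matrix.nonsingInvUnit y hy, rfl⟩

theorem glSet_dense (hσ : Function.Injective σ) [Infinite Bˣ] (n : ℕ)
    (x : Matrix (Fin n) (Fin n) Ω) : x ∈ ZCl (glSet σ n) := by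
  have hB : Infinite B := Infinite.of_injective (fun u : Bˣ => (u : B)) Units.val_injective
  refine zcl_univ ?_ ?_ ?_ ?_ x
  · refine ⟨1, ?_⟩
    ext i j
    by_cases h : i = j
    · subst h; simp
    · simp [h]
  · rintro _ ⟨y, rfl⟩ _ ⟨z, rfl⟩
    refine ⟨y * z, ?_⟩
    rw [Units.val_mul, Matrix.map_mul]
  · intro i j hij
    refine (Set.infinite_range_of_injective hσ).mono ?_
    rintro _ ⟨c, rfl⟩
    have h1 : Matrix.transvection i j (σ c) = (Matrix.transvection i j c).map σ := by
      ext p q
      by_cases hpq : p = q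
      · subst hpq
        have : ¬ (i = p ∧ j = p) := fun h => hij (h.1.trans h.2.symm)
        simp [Matrix.transvection, this]
      · simp only [Matrix.transvection, Matrix.add_apply, Matrix.one_apply_ne hpq,
          Matrix.single_apply, Matrix.map_apply, zero_add]
        split_ifs <;> simp
    show Matrix.transvection i j (σ c) ∈ glSet σ n
    rw [h1]
    exact glSet_of_det σ _ (by rw [Matrix.det_transvection_of_ne _ _ hij]; exact isUnit_one)
  · intro i
    have h2 : Function.Injective (fun u : Bˣ => σ (u : B)) := hσ.comp Units.val_injective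
    refine (Set.infinite_range_of_injective h2).mono ?_
    rintro _ ⟨u, rfl⟩
    have h1 : Matrix.diagonal (Function.update (1 : Fin n → Ω) i (σ (u : B))) =
        (Matrix.diagonal (Function.update (1 : Fin n → B) i (u : B))).map σ := by
      ext p q
      by_cases hpq : p = q
      · subst hpq
        by_cases hp : p = i
        · subst hp
          simp
        · simp [hp]
      · simp [hpq]
    show Matrix.diagonal (Function.update (1 : Fin n → Ω) i (σ (u : B))) ∈ glSet σ n
    rw [h1]
    refine glSet_of_det σ _ ?_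
    rw [Matrix.det_diagonal, Finset.prod_update_of_mem (Finset.mem_univ i)]
    simp

/-- **T4**, without the translation -/
theorem exists_GL_one (hσ : Function.Injective σ) [Infinite Bˣ] {r : ℕ} (m : Fin r → ℕ)
    (G : MvPolynomial (Σ i : Fin r, Fin (m i) × Fin (m i)) Ω) (hG : G ≠ 0) :
    ∃ y : ∀ i, Matrix.GeneralLinearGroup (Fin (m i)) B,
      eval (fun s => ((y s.1 : Matrix (Fin (m s.1)) (Fin (m s.1)) B).map σ) s.2.1 s.2.2) G ≠ 0 := by
  classical
  have hB : Infinite B := Infinite.of_injective (fun u : Bˣ => (u : B)) Units.val_injective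
  have hΩ : Infinite Ω := Infinite.of_injective σ hσ
  obtain ⟨x, hx⟩ : ∃ x : (Σ i : Fin r, Fin (m i) × Fin (m i)) → Ω, eval x G ≠ 0 := by
    by_contra hcon
    push Not at hcon
    exact hG (MvPolynomial.funext fun x => by rw [hcon, map_zero])
  have key : ∀ t : Finset (Fin r), ∃ y : ∀ i, Matrix (Fin (m i)) (Fin (m i)) Ω,
      (∀ i ∈ t, y i ∈ glSet σ (m i)) ∧ eval (fun s => y s.1 s.2.1 s.2.2) G ≠ 0 := by
    intro t
    induction t using Finset.induction_on with
    | empty =>
      refine ⟨fun i => Matrix.of fun j k => x ⟨i, j, k⟩, fun i hi => absurd hi (Finset.notMem_empty i), ?_⟩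
      exact hx
    | insert i0 t hi0 ih =>
      obtain ⟨y, hy, hyG⟩ := ih
      set Q : MvPolynomial (Fin (m i0) × Fin (m i0)) Ω :=
        aeval (fun s : (Σ i : Fin r, Fin (m i) × Fin (m i)) =>
          (Function.update (fun i => ((y i).map C :
            Matrix (Fin (m i)) (Fin (m i)) (MvPolynomial (Fin (m i0) × Fin (m i0)) Ω))) i0
              (Matrix.of fun j k => X (j, k))) s.1 s.2.1 s.2.2) G with hQ
      have hev : ∀ z : Matrix (Fin (m i0)) (Fin (m i0)) Ω, eval (fun s => z s.1 s.2) Q =
          eval (fun s : (Σ i : Fin r, Fin (m i) × Fin (m i)) =>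
            (Function.update y i0 z) s.1 s.2.1 s.2.2) G := by
        intro z
        rw [hQ, ← MvPolynomial.coe_aeval_eq_eval, ← MvPolynomial.coe_aeval_eq_eval]
        show aeval _ (aeval _ G) = aeval _ G
        rw [← AlgHom.comp_apply]
        refine DFunLike.congr_fun (MvPolynomial.algHom_ext fun s => ?_) G
        obtain ⟨i, j, k⟩ := s
        rw [AlgHom.comp_apply, aeval_X, aeval_X]
        by_cases hi : i = i0
        · subst hi
          simp
        · simp [Function.update_of_ne hi]
      obtain ⟨z, hz, hz2⟩ := glSet_dense σ hσ (m i0) (y i0) Q (by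
        rw [hev, Function.update_eq_self]
        exact hyG)
      refine ⟨Function.update y i0 z, fun i hi => ?_, by rw [← hev]; exact hz2⟩
      by_cases h : i = i0
      · subst h
        rw [Function.update_self]
        exact hz
      · rw [Function.update_of_ne h]
        exact hy i (Finset.mem_of_mem_insert_of_ne hi h)
  obtain ⟨y, hy, hyG⟩ := key Finset.univ
  choose u hu using fun i => hy i (Finset.mem_univ i)
  refine ⟨u, ?_⟩
  convert hyG using 3
  funext s
  rw [hu s.1]

/-- **T4.** Zariski density of the integral invertible matrices -/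
theorem exists_GL (hσ : Function.Injective σ) [Infinite Bˣ] {r : ℕ} (m : Fin r → ℕ)
    (G : MvPolynomial (Σ i : Fin r, Fin (m i) × Fin (m i)) Ω) (hG : G ≠ 0)
    (z : ∀ i, Matrix (Fin (m i)) (Fin (m i)) Ω) (hz : ∀ i, IsUnit (z i).det) :
    ∃ y : ∀ i, Matrix.GeneralLinearGroup (Fin (m i)) B,
      eval (fun s => ((y s.1 : Matrix (Fin (m s.1)) (Fin (m s.1)) B).map σ * z s.1) s.2.1 s.2.2) G
        ≠ 0 := by
  have h1 : subst m z G ≠ 0 := by
    intro h0
    apply hG
    have h2 := DFunLike.congr_fun (subst_comp m (fun i => z i) (fun i => (z i)⁻¹)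
      (fun i => Matrix.nonsing_inv_mul _ (hz i))) G
    rw [AlgHom.comp_apply, h0, map_zero] at h2
    exact h2.symm
  obtain ⟨y, hy⟩ := exists_GL_one σ hσ m (subst m z G) h1
  refine ⟨y, ?_⟩
  convert hy using 1
  rw [subst, ← MvPolynomial.coe_aeval_eq_eval, ← MvPolynomial.coe_aeval_eq_eval]
  show aeval _ G = aeval _ (aeval _ G)
  rw [← AlgHom.comp_apply]
  refine DFunLike.congr_fun (MvPolynomial.algHom_ext fun s => ?_) G
  obtain ⟨i, j, k⟩ := s
  simp [Matrix.mul_apply]

end Gls

end Pool.Agent.Helper55.BR
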