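import Mathlib

/-!
# BR, block END: endomorphisms of matrix algebras over a commutative ring

Every algebra endomorphism `u` of `M_m(H)` is, locally on `Spec H`, the conjugation by a matrix.
-/

set_option autoImplicit false

namespace Pool.Agent.Helper55.BR

open Matrix

variable {H : Type*} [CommRing H] {m : ℕ}

/-- the matrix with the columns `u (e_(i,o)) e_a` -/
def gcol (u : Matrix (Fin m) (Fin m) H →ₐ[H] Matrix (Fin m) (Fin m) H) (o a : Fin m) :
    Matrix (Fin m) (Fin m) H :=
  Matrix.of fun j i => u (Matrix.single i o 1) j a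

/-- the matrix with the rows `e_a ^ T u (e_(o,j))` -/
def grow (u : Matrix (Fin m) (Fin m) H →ₐ[H] Matrix (Fin m) (Fin m) H) (o a : Fin m) :
    Matrix (Fin m) (Fin m) H :=
  Matrix.of fun j i => u (Matrix.single o j 1) a i

theorem grow_mul_gcol (u : Matrix (Fin m) (Fin m) H →ₐ[H] Matrix (Fin m) (Fin m) H)
    (o a : Fin m) :
    grow u o a * gcol u o a = (u (Matrix.single o o 1) a a) • (1 : Matrix (Fin m) (Fin m) H) := by
  ext j i
  have h : (grow u o a * gcol u o a) j i = (u (Matrix.single o j 1) * u (Matrix.single i o 1)) a a := by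
    simp only [Matrix.mul_apply, grow, gcol, Matrix.of_apply]
  rw [h, ← map_mul, Matrix.smul_apply, Matrix.one_apply]
  by_cases hji : j = i
  · subst hji
    simp
  · rw [Matrix.single_mul_single_of_ne _ _ _ _ hji, map_zero, if_neg hji]
    simp

theorem u_mul_gcol (u : Matrix (Fin m) (Fin m) H →ₐ[H] Matrix (Fin m) (Fin m) H)
    (o a : Fin m) (x : Matrix (Fin m) (Fin m) H) :
    u x * gcol u o a = gcol u o a * x := by
  ext j i
  have h : (u x * gcol u o a) j i = (u x * u (Matrix.single i o 1)) j a := by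
    simp only [Matrix.mul_apply, gcol, Matrix.of_apply]
  have h2 : x * Matrix.single i o 1 = ∑ l, x l i • Matrix.single l o (1 : H) := by
    ext p q
    rw [Matrix.sum_apply, Matrix.mul_apply]
    simp only [Matrix.smul_apply, Matrix.single_apply, smul_eq_mul, mul_ite, mul_one, mul_zero]
    by_cases hq : o = q
    · subst hq
      simp
    · simp [hq]
  rw [h, ← map_mul, h2, map_sum, Matrix.sum_apply, Matrix.mul_apply]
  refine Finset.sum_congr rfl fun l _ => ?_
  rw [map_smul, Matrix.smul_apply, smul_eq_mul]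
  simp only [gcol, Matrix.of_apply]
  ring

theorem sum_diag (u : Matrix (Fin m) (Fin m) H →ₐ[H] Matrix (Fin m) (Fin m) H)
    (hm : IsUnit (m : H)) (o : Fin m) :
    ∑ a, u (Matrix.single o o 1) a a = 1 := by
  have h1 : ∀ i : Fin m, (u (Matrix.single i i 1)).trace = (u (Matrix.single o o 1)).trace := by
    intro i
    have e1 : (Matrix.single i i 1 : Matrix (Fin m) (Fin m) H) =
        Matrix.single i o 1 * Matrix.single o i 1 := by
      simp
    have e2 : (Matrix.single o o 1 : Matrix (Fin m) (Fin m) H) =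
        Matrix.single o i 1 * Matrix.single i o 1 := by
      simp
    rw [e1, map_mul, Matrix.trace_mul_comm, ← map_mul, ← e2]
  have h2 : ∑ i : Fin m, (u (Matrix.single i i 1)).trace = (m : H) := by
    rw [← Matrix.trace_sum, ← map_sum]
    have h3 : ∑ i : Fin m, (Matrix.single i i 1 : Matrix (Fin m) (Fin m) H) = 1 := by
      ext p q
      rw [Matrix.sum_apply, Matrix.one_apply]
      simp only [Matrix.single_apply]
      by_cases hq : p = q
      · subst hq
        simp
      · rw [if_neg hq]
        refine Finset.sum_eq_zero fun i _ => ?_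
        rw [if_neg]
        rintro ⟨rfl, rfl⟩
        exact hq rfl
    rw [h3, map_one, Matrix.trace_one, Fintype.card_fin]
  rw [Finset.sum_congr rfl fun i _ => h1 i, Finset.sum_const, Finset.card_univ, Fintype.card_fin,
    nsmul_eq_mul] at h2
  have h4 : (m : H) * (u (Matrix.single o o 1)).trace = (m : H) * 1 := by rw [h2, mul_one]
  exact hm.mul_left_cancel h4

/-- over a field, every endomorphism of the matrix algebra is inner -/
theorem exists_conj {F : Type*} [Field F] (hm : (m : F) ≠ 0)
    (u : Matrix (Fin m) (Fin m) F →ₐ[F] Matrix (Fin m) (Fin m) F) :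
    ∃ g : Matrix (Fin m) (Fin m) F, IsUnit g.det ∧ ∀ x, u x * g = g * x := by
  have hm0 : 0 < m := by
    rcases Nat.eq_zero_or_pos m with h | h
    · subst h
      simp at hm
    · exact h
  have hs := sum_diag u (IsUnit.mk0 _ hm) ⟨0, hm0⟩
  obtain ⟨a, ha⟩ : ∃ a, u (Matrix.single ⟨0, hm0⟩ ⟨0, hm0⟩ 1) a a ≠ 0 := by
    by_contra hcon
    push Not at hcon
    rw [Finset.sum_eq_zero fun a _ => hcon a] at hs
    exact zero_ne_one hs
  refine ⟨gcol u ⟨0, hm0⟩ a, ?_, fun x => u_mul_gcol u _ a x⟩
  have h1 := congrArg Matrix.det (grow_mul_gcol u ⟨0, hm0⟩ a)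
  rw [Matrix.det_mul, Matrix.det_smul, Matrix.det_one, mul_one] at h1
  refine IsUnit.mk0 _ fun h0 => ?_
  rw [h0, mul_zero] at h1
  exact pow_ne_zero _ ha h1.symm

end Pool.Agent.Helper55.BR
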