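import Mathlib

/-!
# BR, block END: extension of homomorphisms to algebraically closed fields
-/

set_option autoImplicit false

namespace Pool.Agent.Helper55.BR

/-- a homomorphism to an algebraically closed field extends to every integral extension -/
theorem exists_extend {A C Ω : Type*} [CommRing A] [CommRing C] [Field Ω] [IsAlgClosed Ω]
    [Algebra A C] [Algebra.IsIntegral A C] (φ : A →+* Ω)
    (hφ : ∀ a : A, algebraMap A C a = 0 → φ a = 0) :
    ∃ ε : C →+* Ω, ∀ a, ε (algebraMap A C a) = φ a := by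
  have hp : (RingHom.ker φ).IsPrime := RingHom.ker_isPrime φ
  obtain ⟨q, -, hq, hqp⟩ := Ideal.exists_ideal_over_prime_of_isIntegral (R := A) (S := C)
    (RingHom.ker φ) ⊥ (by
      intro a ha
      rw [Ideal.mem_comap, Ideal.mem_bot] at ha
      exact hφ a ha)
  have hqo : q.LiesOver (RingHom.ker φ) := ⟨hqp.symm⟩
  have hint : Algebra.IsIntegral (A ⧸ RingHom.ker φ) (C ⧸ q) := inferInstance
  let iφ : Algebra (A ⧸ RingHom.ker φ) Ω := (RingHom.kerLift φ).toAlgebra
  have h1 : Function.Injective (algebraMap (A ⧸ RingHom.ker φ) Ω) := RingHom.kerLift_injective φ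
  have h2 : Function.Injective (algebraMap (A ⧸ RingHom.ker φ) (C ⧸ q)) :=
    FaithfulSMul.algebraMap_injective _ _
  have h3 : Module.IsTorsionFree (A ⧸ RingHom.ker φ) Ω := by
    rw [Module.isTorsionFree_iff_faithfulSMul, faithfulSMul_iff_algebraMap_injective]
    exact h1
  have h4 : Module.IsTorsionFree (A ⧸ RingHom.ker φ) (C ⧸ q) := by
    rw [Module.isTorsionFree_iff_faithfulSMul, faithfulSMul_iff_algebraMap_injective]
    exact h2
  let l : (C ⧸ q) →ₐ[A ⧸ RingHom.ker φ] Ω := IsAlgClosed.lift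
  refine ⟨(l : (C ⧸ q) →+* Ω).comp (Ideal.Quotient.mk q), fun a => ?_⟩
  have h5 : Ideal.Quotient.mk q (algebraMap A C a) =
      algebraMap (A ⧸ RingHom.ker φ) (C ⧸ q) (Ideal.Quotient.mk _ a) := rfl
  rw [RingHom.comp_apply, h5]
  show l (algebraMap (A ⧸ RingHom.ker φ) (C ⧸ q) (Ideal.Quotient.mk _ a)) = φ a
  rw [AlgHom.commutes]
  rfl

end Pool.Agent.Helper55.BR
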